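import Pool.Agent.Helper56.NonNestedMain

namespace Pool.Agent.Results.MP_19ad23_co.NonNestedMatchings

open Pool.Agent.Helper56.NonNested

/-- Both conjectured equalities fail: the extremal number for non-nested `k`-matchings exceeds
`(k - 1) n` for `k = 5, n ≥ 12` and for all `k ≥ 6, n ≥ 2k + 1`; the one for strongly non-nested
`k`-matchings exceeds `(k - 1) n` for all `k ≥ 4, n ≥ 2k + 1`. -/
theorem result :
    (∀ k n : ℕ, (k = 5 ∧ 12 ≤ n) ∨ (6 ≤ k ∧ 2 * k + 1 ≤ n) → (k - 1) * n < exNonNested n k) ∧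
      (∀ k n : ℕ, 4 ≤ k → 2 * k + 1 ≤ n → (k - 1) * n < exStronglyNonNested n k) := by
  constructor
  · rintro k n (⟨rfl, hn⟩ | ⟨hk, hn⟩)
    · exact small12 hn
    · exact main6 hk hn
  · intro k n hk hn
    rcases Nat.lt_or_ge k 6 with h | h
    · have : k = 4 ∨ k = 5 := by omega
      rcases this with rfl | rfl
      · exact small9 (by omega)
      · exact small11 (by omega)
    · exact lt_of_lt_of_le (main6 h hn) (nonNested_le_strong n k)

end Pool.Agent.Results.MP_19ad23_co.NonNestedMatchings
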